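import Pool.Agent.E8helper19.LC.Stm

set_option autoImplicit false
open MeasureTheory Filter Topology Set
open scoped ContDiff Real

namespace Pool.Agent.E8helper63.LC

open Pool.Agent.E8helper19.LC

lemma pw_zero_norm (k s : ℝ) : ‖pw k s‖ = 1 := by
  unfold pw
  rw [Complex.norm_exp]
  have : (Complex.I * k * s).re = 0 := by simp
  rw [this, Real.exp_zero]

lemma pw_cont (k : ℝ) : Continuous (pw k) := by
  unfold pw
  fun_prop

lemma pw_add (k s t : ℝ) : pw k (s + t) = pw k s * pw k t := by
  unfold pw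
  rw [← Complex.exp_add]
  congr 1
  push_cast
  ring

lemma pw_neg_arg (k s : ℝ) : pw k (-s) = pw (-k) s := by
  unfold pw
  congr 1
  push_cast
  ring

lemma pw_mul_neg (k s : ℝ) : pw k s * pw (-k) s = 1 := by
  unfold pw
  rw [← Complex.exp_add]
  have : Complex.I * k * s + Complex.I * ((-k : ℝ) : ℂ) * s = 0 := by push_cast; ring
  rw [this, Complex.exp_zero]

lemma pw_deriv (k s : ℝ) : HasDerivAt (pw k) (Complex.I * k * pw k s) s := by
  have h1 : HasDerivAt (fun s : ℝ => Complex.I * k * (s : ℂ)) (Complex.I * k) s := by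
    have := (Complex.ofRealCLM.hasDerivAt (x := s)).const_mul (Complex.I * k)
    simpa using this
  have h2 := h1.cexp
  unfold pw
  convert h2 using 1
  ring

lemma g0_le (k s t : ℝ) (h : t ≤ s) : g0 k (s - t) = Complex.I / (2 * k) * (pw k s * pw (-k) t) := by
  unfold g0
  rw [abs_of_nonneg (by linarith), sub_eq_add_neg, pw_add, pw_neg_arg]

lemma g0_ge (k s t : ℝ) (h : s ≤ t) : g0 k (s - t) = Complex.I / (2 * k) * (pw (-k) s * pw k t) := by
  unfold g0
  rw [abs_of_nonpos (by linarith), neg_sub, sub_eq_add_neg, pw_add, pw_neg_arg, mul_comm (pw k t)]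

lemma g0_cont (k : ℝ) : Continuous (g0 k) := by
  unfold g0
  exact continuous_const.mul ((pw_cont k).comp continuous_abs)

section

variable {k : ℝ} {h : ℝ → ℂ}

lemma int_mul (hc : Continuous h) (hs : HasCompactSupport h) {F : ℝ → ℂ} (hF : Continuous F) :
    Integrable (fun t => F t * h t) :=
  (hF.mul hc).integrable_of_hasCompactSupport hs.mul_left

/-- the potential -/
lemma U_eq (hc : Continuous h) (hs : HasCompactSupport h) (s : ℝ) :
    ∫ t, g0 k (s - t) * h t = Complex.I / (2 * k) * (pw k s * (∫ t in Iic s, pw (-k) t * h t) +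
      pw (-k) s * (∫ t in Ioi s, pw k t * h t)) := by
  have hint : Integrable (fun t => g0 k (s - t) * h t) :=
    int_mul hc hs ((g0_cont k).comp (continuous_const.sub continuous_id))
  rw [← integral_add_compl (measurableSet_Iic (a := s)) hint, compl_Iic]
  have h1 : ∫ t in Iic s, g0 k (s - t) * h t = ∫ t in Iic s, (Complex.I / (2 * k) * pw k s) * (pw (-k) t * h t) := by
    apply setIntegral_congr_fun measurableSet_Iic
    intro t ht
    simp only
    rw [g0_le k s t ht]
    ring
  have h2 : ∫ t in Ioi s, g0 k (s - t) * h t = ∫ t in Ioi s, (Complex.I / (2 * k) * pw (-k) s) * (pw k t * h t) := by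
    apply setIntegral_congr_fun measurableSet_Ioi
    intro t ht
    simp only
    rw [g0_ge k s t (le_of_lt ht)]
    ring
  rw [h1, h2, integral_const_mul, integral_const_mul]
  ring

lemma Iic_deriv {F : ℝ → ℂ} (hc : Continuous F) (hi : Integrable F) (s : ℝ) :
    HasDerivAt (fun s => ∫ t in Iic s, F t) (F s) s := by
  have h1 : (fun s => ∫ t in Iic s, F t) = fun s => (∫ t in Iic (0 : ℝ), F t) + ∫ t in (0 : ℝ)..s, F t := by
    funext s
    rw [← intervalIntegral.integral_Iic_sub_Iic hi.integrableOn hi.integrableOn]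
    ring
  rw [h1]
  have h2 := (hc.integral_hasStrictDerivAt (0 : ℝ) s).hasDerivAt
  exact h2.const_add _

lemma Ioi_deriv {F : ℝ → ℂ} (hc : Continuous F) (hi : Integrable F) (s : ℝ) :
    HasDerivAt (fun s => ∫ t in Ioi s, F t) (-F s) s := by
  have h1 : (fun s => ∫ t in Ioi s, F t) = fun s => (∫ t, F t) - ∫ t in Iic s, F t := by
    funext s
    rw [← integral_add_compl (measurableSet_Iic (a := s)) hi, compl_Iic]
    ring
  rw [h1]
  exact (Iic_deriv hc hi s).const_sub _

lemma U_deriv (hk : 0 < k) (hc : Continuous h) (hs : HasCompactSupport h) (s : ℝ) :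
    HasDerivAt (fun s => ∫ t, g0 k (s - t) * h t)
      (-(1 / 2) * (pw k s * (∫ t in Iic s, pw (-k) t * h t) - pw (-k) s * (∫ t in Ioi s, pw k t * h t))) s := by
  have h1 : (fun s => ∫ t, g0 k (s - t) * h t) = fun s => Complex.I / (2 * k) *
      (pw k s * (∫ t in Iic s, pw (-k) t * h t) + pw (-k) s * (∫ t in Ioi s, pw k t * h t)) := by
    funext s; exact U_eq hc hs s
  rw [h1]
  have hP := Iic_deriv ((pw_cont (-k)).mul hc) (int_mul hc hs (pw_cont (-k))) s
  have hQ := Ioi_deriv ((pw_cont k).mul hc) (int_mul hc hs (pw_cont k)) s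
  have h2 := (((pw_deriv k s).mul hP).add ((pw_deriv (-k) s).mul hQ)).const_mul (Complex.I / (2 * k))
  refine h2.congr_deriv ?_
  have hk' : (k : ℂ) ≠ 0 := by exact_mod_cast hk.ne'
  have e1 := pw_mul_neg k s
  have e2 : pw (-k) s * pw k s = 1 := by rw [mul_comm]; exact e1
  have e3 : pw k s * (pw (-k) s * h s) = h s := by rw [← mul_assoc, e1, one_mul]
  have e4 : pw (-k) s * -(pw k s * h s) = -h s := by rw [mul_neg, ← mul_assoc, e2, one_mul]
  simp only [Pi.mul_apply]
  rw [e3, e4]
  push_cast
  field_simp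
  linear_combination ((k : ℂ) * (pw k s * (∫ t in Iic s, pw (-k) t * h t) -
    pw (-k) s * (∫ t in Ioi s, pw k t * h t))) * Complex.I_mul_I

lemma W_deriv (hk : 0 < k) (hc : Continuous h) (hs : HasCompactSupport h) (s : ℝ) :
    HasDerivAt (fun s => -(1 / 2) * (pw k s * (∫ t in Iic s, pw (-k) t * h t) -
      pw (-k) s * (∫ t in Ioi s, pw k t * h t)))
      (-h s - (k : ℂ) ^ 2 * ∫ t, g0 k (s - t) * h t) s := by
  have hP := Iic_deriv ((pw_cont (-k)).mul hc) (int_mul hc hs (pw_cont (-k))) s
  have hQ := Ioi_deriv ((pw_cont k).mul hc) (int_mul hc hs (pw_cont k)) s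
  have h2 := (((pw_deriv k s).mul hP).sub ((pw_deriv (-k) s).mul hQ)).const_mul (-(1 / 2) : ℂ)
  refine h2.congr_deriv ?_
  rw [U_eq hc hs s]
  have hk' : (k : ℂ) ≠ 0 := by exact_mod_cast hk.ne'
  have e1 := pw_mul_neg k s
  have e2 : pw (-k) s * pw k s = 1 := by rw [mul_comm]; exact e1
  have e3 : pw k s * (pw (-k) s * h s) = h s := by rw [← mul_assoc, e1, one_mul]
  have e4 : pw (-k) s * -(pw k s * h s) = -h s := by rw [mul_neg, ← mul_assoc, e2, one_mul]
  simp only [Pi.mul_apply]
  rw [e3, e4]
  push_cast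
  field_simp
  ring

lemma U_cont (hk : 0 < k) (hc : Continuous h) (hs : HasCompactSupport h) :
    Continuous (fun s => ∫ t, g0 k (s - t) * h t) :=
  continuous_iff_continuousAt.2 fun s => (U_deriv hk hc hs s).continuousAt

lemma U_smooth (hk : 0 < k) (hc : Continuous h) (hs : HasCompactSupport h) :
    ContDiff ℝ 2 (fun s => ∫ t, g0 k (s - t) * h t) := by
  have e1 : deriv (fun s => ∫ t, g0 k (s - t) * h t) = fun s => -(1 / 2) *
      (pw k s * (∫ t in Iic s, pw (-k) t * h t) - pw (-k) s * (∫ t in Ioi s, pw k t * h t)) :=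
    funext fun s => (U_deriv hk hc hs s).deriv
  have e2 : deriv (fun s => -(1 / 2) *
      (pw k s * (∫ t in Iic s, pw (-k) t * h t) - pw (-k) s * (∫ t in Ioi s, pw k t * h t))) =
      fun s => -h s - (k : ℂ) ^ 2 * ∫ t, g0 k (s - t) * h t :=
    funext fun s => (W_deriv hk hc hs s).deriv
  have h3 : ContDiff ℝ 1 (deriv (fun s => ∫ t, g0 k (s - t) * h t)) := by
    rw [e1, contDiff_one_iff_deriv]
    refine ⟨fun s => (W_deriv hk hc hs s).differentiableAt, ?_⟩
    rw [e2]
    exact hc.neg.sub (continuous_const.mul (U_cont hk hc hs))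
  have h4 : (2 : WithTop ℕ∞) = 1 + 1 := by norm_num
  rw [h4, contDiff_succ_iff_deriv]
  refine ⟨fun s => (U_deriv hk hc hs s).differentiableAt, ?_, h3⟩
  intro h5
  exact absurd h5 (by decide)

lemma U_dd (hk : 0 < k) (hc : Continuous h) (hs : HasCompactSupport h) (s : ℝ) :
    deriv (deriv (fun s => ∫ t, g0 k (s - t) * h t)) s = -h s - (k : ℂ) ^ 2 * ∫ t, g0 k (s - t) * h t := by
  have e1 : deriv (fun s => ∫ t, g0 k (s - t) * h t) = fun s => -(1 / 2) *
      (pw k s * (∫ t in Iic s, pw (-k) t * h t) - pw (-k) s * (∫ t in Ioi s, pw k t * h t)) :=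
    funext fun s => (U_deriv hk hc hs s).deriv
  rw [e1]
  exact (W_deriv hk hc hs s).deriv

/-- behaviour outside the support -/
lemma U_out (hc : Continuous h) (hs : HasCompactSupport h) : ∃ R : ℝ, 0 < R ∧
    (∀ s, R ≤ s → ∫ t, g0 k (s - t) * h t = Complex.I / (2 * k) * (∫ t, pw (-k) t * h t) * pw k s) ∧
    ∀ s, s ≤ -R → ∫ t, g0 k (s - t) * h t = Complex.I / (2 * k) * (∫ t, pw k t * h t) * pw (-k) s := by
  obtain ⟨R, hR⟩ := hs.isCompact.isBounded.subset_closedBall (0 : ℝ)
  have hz : ∀ t : ℝ, max R 1 < |t| → h t = 0 := by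
    intro t ht
    by_contra hne
    have h1 : t ∈ tsupport h := subset_tsupport h hne
    have h2 := hR h1
    rw [mem_closedBall_zero_iff, Real.norm_eq_abs] at h2
    have := le_max_left R 1
    linarith
  have hz' : ∀ t : ℝ, max R 1 + 1 ≤ |t| → h t = 0 := fun t ht => hz t (by linarith)
  refine ⟨max R 1 + 1, by positivity, ?_, ?_⟩
  · intro s hs'
    rw [← integral_const_mul, ← integral_mul_const]
    apply integral_congr_ae
    filter_upwards with t
    rcases le_total t s with h1 | h1
    · rw [g0_le k s t h1]; ring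
    · have h2 : h t = 0 := hz' t (by rw [abs_of_nonneg (by linarith [le_max_right R 1])]; linarith)
      rw [h2]; ring
  · intro s hs'
    rw [← integral_const_mul, ← integral_mul_const]
    apply integral_congr_ae
    filter_upwards with t
    rcases le_total s t with h1 | h1
    · rw [g0_ge k s t h1]; ring
    · have h2 : h t = 0 := hz' t (by rw [abs_of_nonpos (by linarith [le_max_right R 1])]; linarith)
      rw [h2]; ring

lemma U_bdd (hc : Continuous h) (hs : HasCompactSupport h) (s : ℝ) :
    ‖∫ t, g0 k (s - t) * h t‖ ≤ ‖Complex.I / (2 * (k : ℂ))‖ * ∫ t, ‖h t‖ := by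
  refine (norm_integral_le_integral_norm _).trans (le_of_eq ?_)
  rw [← integral_const_mul]
  apply integral_congr_ae
  filter_upwards with t
  rw [norm_mul]
  unfold g0
  rw [norm_mul, pw_zero_norm, mul_one]

end

/-- a combination of `e^(iks)` and `e^(-iks)` which tends to zero vanishes -/
lemma coef_zero {k : ℝ} (hk : 0 < k) {F : Filter ℝ} [F.NeBot] (hF : ∀ c : ℝ, Tendsto (fun s => s + c) F F)
    {A B : ℂ} (h : Tendsto (fun s => A * pw k s + B * pw (-k) s) F (𝓝 0)) : A = 0 ∧ B = 0 := by
  have h2 := h.comp (hF (π / (2 * k)))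
  have q1 : pw k (π / (2 * k)) = Complex.I := by
    unfold pw
    have hk' : (k : ℂ) ≠ 0 := by exact_mod_cast hk.ne'
    have : Complex.I * k * ((π / (2 * k) : ℝ) : ℂ) = π / 2 * Complex.I := by
      push_cast; field_simp
    rw [this, Complex.exp_pi_div_two_mul_I]
  have q2 : pw (-k) (π / (2 * k)) = -Complex.I := by
    have := pw_mul_neg k (π / (2 * k))
    rw [q1] at this
    have h3 : Complex.I * pw (-k) (π / (2 * k)) = Complex.I * (-Complex.I) := by
      rw [this]; simp
    exact mul_left_cancel₀ Complex.I_ne_zero h3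
  have e : ∀ s, A * pw k (s + π / (2 * k)) + B * pw (-k) (s + π / (2 * k)) =
      Complex.I * (A * pw k s) - Complex.I * (B * pw (-k) s) := by
    intro s
    rw [pw_add, pw_add, q1, q2]; ring
  have h3 : Tendsto (fun s => Complex.I * (A * pw k s) - Complex.I * (B * pw (-k) s)) F (𝓝 0) := by
    refine h2.congr ?_
    intro s
    exact e s
  have h4 : Tendsto (fun s => 2 * (A * pw k s)) F (𝓝 0) := by
    have := h.sub (h3.const_mul Complex.I)
    rw [mul_zero, sub_zero] at this
    refine this.congr ?_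
    intro s
    have hI := Complex.I_mul_I
    linear_combination (-(A * pw k s) + B * pw (-k) s) * hI
  have h5 : Tendsto (fun s => 2 * (B * pw (-k) s)) F (𝓝 0) := by
    have := h.add (h3.const_mul Complex.I)
    rw [mul_zero, add_zero] at this
    refine this.congr ?_
    intro s
    have hI := Complex.I_mul_I
    linear_combination ((A * pw k s) - B * pw (-k) s) * hI
  constructor
  · have h6 := h4.norm
    simp only [norm_mul, pw_zero_norm, mul_one, norm_zero] at h6
    have h7 := tendsto_nhds_unique h6 tendsto_const_nhds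
    have h8 : ‖A‖ = 0 := by
      have : ‖(2 : ℂ)‖ = 2 := by simp
      rw [this] at h7; linarith
    exact norm_eq_zero.1 h8
  · have h6 := h5.norm
    simp only [norm_mul, pw_zero_norm, mul_one, norm_zero] at h6
    have h7 := tendsto_nhds_unique h6 tendsto_const_nhds
    have h8 : ‖B‖ = 0 := by
      have : ‖(2 : ℂ)‖ = 2 := by simp
      rw [this] at h7; linarith
    exact norm_eq_zero.1 h8

/-- solutions of `g'' = -k² g` -/
lemma ode_sol {k : ℝ} (hk : 0 < k) {g g' : ℝ → ℂ} (h1 : ∀ s, HasDerivAt g (g' s) s)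
    (h2 : ∀ s, HasDerivAt g' (-(k : ℂ) ^ 2 * g s) s) : ∃ a b : ℂ, ∀ s, g s = a * pw k s + b * pw (-k) s := by
  have hk' : (k : ℂ) ≠ 0 := by exact_mod_cast hk.ne'
  have c1 : ∀ s, pw (-k) s * (g' s + Complex.I * k * g s) = pw (-k) 0 * (g' 0 + Complex.I * k * g 0) := by
    intro s
    have hd : ∀ s, HasDerivAt (fun s => pw (-k) s * (g' s + Complex.I * k * g s)) 0 s := by
      intro s
      have := (pw_deriv (-k) s).mul ((h2 s).add ((h1 s).const_mul (Complex.I * k)))
      refine this.congr_deriv ?_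
      simp only [Pi.add_apply]
      push_cast
      linear_combination (-(k : ℂ) ^ 2 * g s * pw (-k) s) * Complex.I_mul_I
    exact is_const_of_deriv_eq_zero (fun s => (hd s).differentiableAt) (fun s => (hd s).deriv) s 0
  have c2 : ∀ s, pw k s * (g' s - Complex.I * k * g s) = pw k 0 * (g' 0 - Complex.I * k * g 0) := by
    intro s
    have hd : ∀ s, HasDerivAt (fun s => pw k s * (g' s - Complex.I * k * g s)) 0 s := by
      intro s
      have := (pw_deriv k s).mul ((h2 s).sub ((h1 s).const_mul (Complex.I * k)))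
      refine this.congr_deriv ?_
      simp only [Pi.sub_apply]
      linear_combination (-(k : ℂ) ^ 2 * g s * pw k s) * Complex.I_mul_I
    exact is_const_of_deriv_eq_zero (fun s => (hd s).differentiableAt) (fun s => (hd s).deriv) s 0
  refine ⟨pw (-k) 0 * (g' 0 + Complex.I * k * g 0) / (2 * Complex.I * k),
    -(pw k 0 * (g' 0 - Complex.I * k * g 0)) / (2 * Complex.I * k), fun s => ?_⟩
  rw [← c1 s, ← c2 s]
  have e1 := pw_mul_neg k s
  field_simp
  linear_combination (-(2 * Complex.I * k * g s)) * e1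

theorem t_1DA : S_1DA := by
  intro k V f r t hk hVc hVs
  have hk' : (k : ℂ) ≠ 0 := by exact_mod_cast hk.ne'
  have hVcC : Continuous (fun s => (V s : ℂ)) := Complex.continuous_ofReal.comp hVc
  have hVsC : HasCompactSupport (fun s => (V s : ℂ)) := by
    apply hVs.comp_left (g := fun x : ℝ => (x : ℂ))
    simp
  constructor
  · rintro ⟨hsol, hbot, htop⟩
    have hfc : Continuous f := hsol.smooth.continuous
    have hc : Continuous (fun s => (V s : ℂ) * f s) := hVcC.mul hfc
    have hs : HasCompactSupport (fun s => (V s : ℂ) * f s) := hVsC.mul_right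
    have hU : ∀ s, K0 k V f s = ∫ t, g0 k (s - t) * ((V t : ℂ) * f t) := fun s => rfl
    obtain ⟨R, hR, hR1, hR2⟩ := U_out (k := k) hc hs
    have hfd : ∀ s, HasDerivAt f (deriv f s) s := fun s =>
      ((hsol.smooth.differentiable (by norm_num)) s).hasDerivAt
    have hf1 : ContDiff ℝ 1 (deriv f) := by
      have h4 : (2 : WithTop ℕ∞) = 1 + 1 := by norm_num
      have := hsol.smooth
      rw [h4, contDiff_succ_iff_deriv] at this
      exact this.2.2
    have hfdd : ∀ s, HasDerivAt (deriv f) (deriv (deriv f) s) s := fun s =>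
      ((hf1.differentiable (by norm_num)) s).hasDerivAt
    obtain ⟨a, b, hab⟩ := ode_sol hk (g := fun s => f s - K0 k V f s)
      (g' := fun s => deriv f s - (-(1 / 2) * (pw k s * (∫ t in Iic s, pw (-k) t * ((V t : ℂ) * f t)) -
        pw (-k) s * (∫ t in Ioi s, pw k t * ((V t : ℂ) * f t)))))
      (fun s => (hfd s).sub (U_deriv hk hc hs s)) (by
        intro s
        refine ((hfdd s).sub (W_deriv hk hc hs s)).congr_deriv ?_
        have h5 := hsol.eq s
        rw [hU s]
        push_cast at h5
        linear_combination -h5)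
    have hf : ∀ s, f s = K0 k V f s + (a * pw k s + b * pw (-k) s) := by
      intro s
      have := hab s
      linear_combination this
    -- at `+∞`
    have htop' : Tendsto (fun s => (a + Complex.I / (2 * k) * (∫ t, pw (-k) t * ((V t : ℂ) * f t)) - t) * pw k s +
        b * pw (-k) s) atTop (𝓝 0) := by
      refine htop.congr' ?_
      filter_upwards [eventually_ge_atTop R] with s hsR
      rw [hf s, hU s, hR1 s hsR]
      ring
    have hbot' : Tendsto (fun s => (a - 1) * pw k s +
        (b + Complex.I / (2 * k) * (∫ t, pw k t * ((V t : ℂ) * f t)) - r) * pw (-k) s) atBot (𝓝 0) := by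
      refine hbot.congr' ?_
      filter_upwards [eventually_le_atBot (-R)] with s hsR
      rw [hf s, hU s, hR2 s hsR]
      ring
    obtain ⟨h5, hb⟩ := coef_zero hk (fun c => tendsto_atTop_add_const_right _ c tendsto_id) htop'
    obtain ⟨ha, h6⟩ := coef_zero hk (fun c => tendsto_atBot_add_const_right _ c tendsto_id) hbot'
    have ha1 : a = 1 := sub_eq_zero.1 ha
    subst hb
    rw [ha1] at hf h5
    have hf' : ∀ s, f s = pw k s + K0 k V f s := by
      intro s
      rw [hf s]
      ring_nf
    refine ⟨⟨hfc, ⟨1 + ‖Complex.I / (2 * (k : ℂ))‖ * ∫ t, ‖(V t : ℂ) * f t‖, ?_⟩⟩, ?_, ?_, ?_⟩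
    · intro s
      rw [hf s]
      have h7 := U_bdd (k := k) hc hs s
      have h8 : ‖K0 k V f s + (1 * pw k s + 0 * pw (-k) s)‖ ≤ ‖K0 k V f s‖ + ‖pw k s‖ := by
        rw [one_mul, zero_mul, add_zero]
        exact norm_add_le _ _
      rw [pw_zero_norm] at h8
      rw [← hU s] at h7
      linarith
    · intro s
      have := hf s
      rw [one_mul, zero_mul, add_zero, add_comm] at this
      exact this
    · linear_combination -h6
    · linear_combination -h5
  · rintro ⟨hBC, heq, hr, ht⟩
    have hfc : Continuous f := hBC.cont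
    have hc : Continuous (fun s => (V s : ℂ) * f s) := hVcC.mul hfc
    have hs : HasCompactSupport (fun s => (V s : ℂ) * f s) := hVsC.mul_right
    obtain ⟨R, hR, hR1, hR2⟩ := U_out (k := k) hc hs
    have hfe : f = fun s => pw k s + ∫ t, g0 k (s - t) * ((V t : ℂ) * f t) := funext heq
    have hpd : deriv (pw k) = fun s => Complex.I * k * pw k s := funext fun s => (pw_deriv k s).deriv
    have hpws : ContDiff ℝ 2 (pw k) := by
      unfold pw
      have : ContDiff ℝ 2 (fun s : ℝ => Complex.I * k * (s : ℂ)) :=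
        contDiff_const.mul Complex.ofRealCLM.contDiff
      exact this.cexp
    have hd1 : ∀ s, HasDerivAt f (Complex.I * k * pw k s + (-(1 / 2) * (pw k s * (∫ t in Iic s, pw (-k) t * ((V t : ℂ) * f t)) -
        pw (-k) s * (∫ t in Ioi s, pw k t * ((V t : ℂ) * f t))))) s := by
      intro s
      have := (pw_deriv k s).add (U_deriv hk hc hs s)
      exact this.congr_of_eventuallyEq (Eventually.of_forall fun s => heq s)
    have hd2 : deriv f = fun s => Complex.I * k * pw k s + (-(1 / 2) * (pw k s * (∫ t in Iic s, pw (-k) t * ((V t : ℂ) * f t)) -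
        pw (-k) s * (∫ t in Ioi s, pw k t * ((V t : ℂ) * f t)))) := funext fun s => (hd1 s).deriv
    refine ⟨⟨?_, ?_⟩, ?_, ?_⟩
    · have h9 : ContDiff ℝ 2 (fun s => pw k s + ∫ t, g0 k (s - t) * ((V t : ℂ) * f t)) :=
        hpws.add (U_smooth hk hc hs)
      rw [← hfe] at h9
      exact h9
    · intro s
      have h10 : HasDerivAt (deriv f) (Complex.I * k * (Complex.I * k * pw k s) +
          (-((V s : ℂ) * f s) - (k : ℂ) ^ 2 * ∫ t, g0 k (s - t) * ((V t : ℂ) * f t))) s := by
        rw [hd2]
        exact ((pw_deriv k s).const_mul _).add (W_deriv hk hc hs s)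
      rw [h10.deriv]
      have h11 : (∫ t, g0 k (s - t) * ((V t : ℂ) * f t)) = f s - pw k s := by
        have := heq s
        have hU : K0 k V f s = ∫ t, g0 k (s - t) * ((V t : ℂ) * f t) := rfl
        rw [← hU, this]; ring
      rw [h11]
      push_cast
      linear_combination (-(k : ℂ) ^ 2 * pw k s) * Complex.I_mul_I
    · refine tendsto_const_nhds.congr' ?_
      filter_upwards [eventually_le_atBot (-R)] with s hsR
      have hU : K0 k V f s = ∫ t, g0 k (s - t) * ((V t : ℂ) * f t) := rfl
      rw [heq s, hU, hR2 s hsR, hr]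
      ring
    · refine tendsto_const_nhds.congr' ?_
      filter_upwards [eventually_ge_atTop R] with s hsR
      have hU : K0 k V f s = ∫ t, g0 k (s - t) * ((V t : ℂ) * f t) := rfl
      rw [heq s, hU, hR1 s hsR, ht]
      ring

end Pool.Agent.E8helper63.LC
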