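import Pool.Agent.E8helper63.LC.OneD

set_option autoImplicit false
open MeasureTheory Filter Topology Set
open scoped ContDiff Real

namespace Pool.Agent.E8helper63.LC

open Pool.Agent.E8helper19.LC

/-- `e^(ikx)` is Lipschitz -/
lemma pw_lip {k : ℝ} (hk : 0 ≤ k) (x y : ℝ) : ‖pw k x - pw k y‖ ≤ k * |x - y| := by
  have h := convex_univ.norm_image_sub_le_of_norm_deriv_le (f := pw k) (C := k) (s := Set.univ)
    (fun z _ => (pw_deriv k z).differentiableAt) (by
      intro z _
      rw [(pw_deriv k z).deriv, norm_mul, norm_mul, pw_zero_norm, Complex.norm_I, Complex.norm_real,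
        Real.norm_of_nonneg hk]
      simp) (mem_univ y) (mem_univ x)
  rwa [Real.norm_eq_abs] at h

lemma pw_lip_neg {k : ℝ} (hk : 0 ≤ k) (x y : ℝ) : ‖pw (-k) x - pw (-k) y‖ ≤ k * |x - y| := by
  rw [← pw_neg_arg, ← pw_neg_arg]
  refine (pw_lip hk _ _).trans (le_of_eq ?_)
  congr 1
  rw [← abs_neg]
  congr 1
  ring

lemma g0_lip {k : ℝ} (hk : 0 < k) (x y : ℝ) : ‖g0 k x - g0 k y‖ ≤ 1 / 2 * |x - y| := by
  unfold g0
  rw [← mul_sub, norm_mul]
  have h1 : ‖Complex.I / (2 * (k : ℂ))‖ = 1 / (2 * k) := by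
    rw [norm_div, Complex.norm_I, norm_mul, Complex.norm_real, Real.norm_of_nonneg hk.le]
    simp
  rw [h1]
  have h2 := pw_lip hk.le |x| |y|
  have h3 := abs_abs_sub_abs_le_abs_sub x y
  calc 1 / (2 * k) * ‖pw k |x| - pw k |y|‖ ≤ 1 / (2 * k) * (k * |x - y|) := by
        apply mul_le_mul_of_nonneg_left _ (by positivity)
        exact h2.trans (mul_le_mul_of_nonneg_left h3 hk.le)
    _ = 1 / 2 * |x - y| := by field_simp

lemma g0_norm {k : ℝ} (hk : 0 < k) (x : ℝ) : ‖g0 k x‖ = 1 / (2 * k) := by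
  unfold g0
  rw [norm_mul, pw_zero_norm, norm_div, Complex.norm_I, norm_mul, Complex.norm_real,
    Real.norm_of_nonneg hk.le]
  simp

/-- the main estimate -/
lemma main_est {D : ℝ → ℝ → ℝ} {κ : ℝ → ℝ} {β C1 C2 a b M : ℝ} {Φ f : ℝ → ℂ}
    (hD0 : ∀ s t, 0 ≤ D s t) (hDi : Integrable (fun z : ℝ × ℝ => D z.1 z.2))
    (hDs : ∀ u, Integrable (fun t => D t u))
    (hDd : Integrable (fun z : ℝ × ℝ => D z.1 z.2 * |z.1 - z.2|))
    (hC1 : ∫ z : ℝ × ℝ, D z.1 z.2 * |z.1 - z.2| ≤ C1)
    (hC2 : ∫ u, |β * (∫ t, D t u) - κ u| ≤ C2)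
    (hκ : Integrable κ) (hβ : 0 ≤ β) (ha : 0 ≤ a) (hb : 0 ≤ b)
    (hΦc : Continuous Φ) (hΦb : ∀ t, ‖Φ t‖ ≤ b) (hΦl : ∀ t u, ‖Φ t - Φ u‖ ≤ a * |t - u|)
    (hfc : Continuous f) (hfM : ∀ t, ‖f t‖ ≤ M) :
    ‖(β : ℂ) * (∫ t, Φ t * ∫ u, (D t u : ℂ) * f u) - ∫ u, Φ u * ((κ u : ℂ) * f u)‖ ≤
      (β * a * C1 + b * C2) * M := by
  have hM : 0 ≤ M := (norm_nonneg _).trans (hfM 0)
  have hDiC : Integrable (fun z : ℝ × ℝ => (D z.1 z.2 : ℂ)) := hDi.ofReal
  have hF : Integrable (fun z : ℝ × ℝ => Φ z.1 * ((D z.1 z.2 : ℂ) * f z.2)) := by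
    refine (hDi.norm.const_mul (b * M)).mono' ?_ ?_
    · exact ((hΦc.comp continuous_fst).aestronglyMeasurable).mul
        (hDiC.aestronglyMeasurable.mul (hfc.comp continuous_snd).aestronglyMeasurable)
    · filter_upwards with z
      rw [norm_mul, norm_mul, Complex.norm_real]
      have h1 := hΦb z.1
      have h2 := hfM z.2
      calc ‖Φ z.1‖ * (‖D z.1 z.2‖ * ‖f z.2‖) ≤ b * (‖D z.1 z.2‖ * M) := by gcongr
        _ = b * M * ‖D z.1 z.2‖ := by ring
  have hswap : ∫ t, Φ t * ∫ u, (D t u : ℂ) * f u = ∫ u, ∫ t, Φ t * ((D t u : ℂ) * f u) := by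
    have h1 : ∀ t, Φ t * ∫ u, (D t u : ℂ) * f u = ∫ u, Φ t * ((D t u : ℂ) * f u) := fun t =>
      (integral_const_mul _ _).symm
    simp_rw [h1]
    exact integral_integral_swap hF
  have hin : ∀ u, ∫ t, Φ t * ((D t u : ℂ) * f u) = (∫ t, Φ t * (D t u : ℂ)) * f u := by
    intro u
    rw [← integral_mul_const]
    apply integral_congr_ae
    filter_upwards with t
    ring
  rw [hswap]
  have hI1 : Integrable (fun u => ∫ t, Φ t * ((D t u : ℂ) * f u)) := hF.integral_prod_right
  have hI2 : Integrable (fun u => Φ u * ((κ u : ℂ) * f u)) := by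
    refine (hκ.norm.const_mul (b * M)).mono' ?_ ?_
    · exact hΦc.aestronglyMeasurable.mul (hκ.ofReal.aestronglyMeasurable.mul hfc.aestronglyMeasurable)
    · filter_upwards with z
      rw [norm_mul, norm_mul, Complex.norm_real]
      have h1 := hΦb z
      have h2 := hfM z
      calc ‖Φ z‖ * (‖κ z‖ * ‖f z‖) ≤ b * (‖κ z‖ * M) := by gcongr
        _ = b * M * ‖κ z‖ := by ring
  rw [← integral_const_mul, ← integral_sub (hI1.const_mul _) hI2]
  have hDd' : Integrable (fun u => ∫ t, D t u * |t - u|) := hDd.integral_prod_right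
  have hDi' : Integrable (fun u => ∫ t, D t u) := hDi.integral_prod_right
  have hH : Integrable (fun u => b * |β * (∫ t, D t u) - κ u|) :=
    ((hDi'.const_mul β).sub hκ).abs.const_mul b
  have hG : Integrable (fun u => M * (β * a * (∫ t, D t u * |t - u|) + b * |β * (∫ t, D t u) - κ u|)) := by
    refine Integrable.const_mul ?_ M
    exact (hDd'.const_mul _).add hH
  refine (norm_integral_le_of_norm_le hG ?_).trans ?_
  · filter_upwards [hDd.prod_left_ae] with u hu
    have hPhi : Integrable (fun t => Φ t * (D t u : ℂ)) := by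
      refine ((hDs u).norm.const_mul b).mono' ?_ ?_
      · exact hΦc.aestronglyMeasurable.mul (hDs u).ofReal.aestronglyMeasurable
      · filter_upwards with t
        rw [norm_mul, Complex.norm_real]
        exact mul_le_mul_of_nonneg_right (hΦb t) (norm_nonneg _)
    have hDC : Integrable (fun t => Φ u * (D t u : ℂ)) := (hDs u).ofReal.const_mul _
    have e1 : (∫ t, Φ t * (D t u : ℂ)) = (∫ t, (Φ t - Φ u) * (D t u : ℂ)) + Φ u * ((∫ t, D t u : ℝ) : ℂ) := by
      rw [← integral_complex_ofReal, ← integral_const_mul, ← integral_add]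
      · apply integral_congr_ae
        filter_upwards with t
        ring
      · have : (fun t => (Φ t - Φ u) * (D t u : ℂ)) = fun t => Φ t * (D t u : ℂ) - Φ u * (D t u : ℂ) := by
          funext t; ring
        rw [this]
        exact hPhi.sub hDC
      · exact hDC
    have e2 : (β : ℂ) * (∫ t, Φ t * ((D t u : ℂ) * f u)) - Φ u * ((κ u : ℂ) * f u) =
        f u * ((β : ℂ) * (∫ t, (Φ t - Φ u) * (D t u : ℂ)) +
          Φ u * ((β * (∫ t, D t u) - κ u : ℝ) : ℂ)) := by
      rw [hin u, e1]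
      push_cast
      ring
    rw [e2, norm_mul]
    have h3 : ‖∫ t, (Φ t - Φ u) * (D t u : ℂ)‖ ≤ a * ∫ t, D t u * |t - u| := by
      rw [← integral_const_mul]
      refine norm_integral_le_of_norm_le (hu.const_mul a) ?_
      filter_upwards with t
      rw [norm_mul, Complex.norm_real, Real.norm_of_nonneg (hD0 t u)]
      calc ‖Φ t - Φ u‖ * D t u ≤ (a * |t - u|) * D t u := by
            apply mul_le_mul_of_nonneg_right (hΦl t u) (hD0 t u)
        _ = a * (D t u * |t - u|) := by ring
    have h4 : ‖(β : ℂ) * (∫ t, (Φ t - Φ u) * (D t u : ℂ)) + Φ u * ((β * (∫ t, D t u) - κ u : ℝ) : ℂ)‖ ≤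
        β * a * (∫ t, D t u * |t - u|) + b * |β * (∫ t, D t u) - κ u| := by
      refine (norm_add_le _ _).trans ?_
      apply add_le_add
      · rw [norm_mul, Complex.norm_real, Real.norm_of_nonneg hβ, mul_assoc]
        exact mul_le_mul_of_nonneg_left h3 hβ
      · rw [norm_mul, Complex.norm_real, Real.norm_eq_abs]
        exact mul_le_mul_of_nonneg_right (hΦb u) (abs_nonneg _)
    exact mul_le_mul (hfM u) h4 (norm_nonneg _) hM
  · rw [integral_const_mul, integral_add (hDd'.const_mul _) hH,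
      integral_const_mul, integral_const_mul]
    have e3 : ∫ u, ∫ t, D t u * |t - u| = ∫ z : ℝ × ℝ, D z.1 z.2 * |z.1 - z.2| :=
      (integral_prod_symm (fun z : ℝ × ℝ => D z.1 z.2 * |z.1 - z.2|) hDd).symm
    rw [e3, mul_comm _ M]
    apply mul_le_mul_of_nonneg_left _ hM
    apply add_le_add
    · exact mul_le_mul_of_nonneg_left hC1 (by positivity)
    · exact mul_le_mul_of_nonneg_left hC2 hb

theorem t_CONV (h : S_D1) (h2 : S_D2) (h3 : S_D3) (h4 : S_TAY) : S_CONV := by
  intro γ L k hγ hne hk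
  obtain ⟨A1, C1, hA1, hC1, hD1⟩ := h γ L k hγ hne hk
  obtain ⟨A2, C2, hA2, hC2, hD2⟩ := h2 γ L k hγ hne hk
  obtain ⟨_, _, _, _, _, hκc, hκ0⟩ := h4 γ L hγ
  have hκs : HasCompactSupport (fun s => kap2 γ s / 4) := by
    apply HasCompactSupport.of_support_subset_isCompact (isCompact_Icc (a := -L) (b := L))
    intro s hs
    by_contra hcon
    apply hs
    have h5 : L < |s| := by
      by_contra h6
      push Not at h6
      exact hcon (abs_le.1 h6)
    simp only
    rw [hκ0 s h5]
    norm_num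
  have hκi : Integrable (fun s => kap2 γ s / 4) := (hκc.div_const 4).integrable_of_hasCompactSupport hκs
  refine ⟨max (max A1 A2) 1, C1 / 4 + C2 / (2 * k) + 2 * C1 + (k * C1 / 2 + C2),
    lt_of_lt_of_le hA1 ((le_max_left _ _).trans (le_max_left _ _)), by positivity, ?_⟩
  intro α w f M hα hw hf hfM
  have hα1 : A1 ≤ α := ((le_max_left _ _).trans (le_max_left _ _)).trans hα
  have hα2 : A2 ≤ α := ((le_max_right _ _).trans (le_max_left _ _)).trans hα
  have hα3 : 1 ≤ α := (le_max_right _ _).trans hα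
  have hα0 : 0 < α := by linarith
  have h2k : 2 * k < α := lt_of_lt_of_le hA1 hα1
  obtain ⟨hD1a, hD1b, hD1c, hD1d⟩ := hD1 α hα1
  have hD2' := hD2 α hα2
  obtain ⟨hD0, hDsym, hDint, hDsl, -, hDDf⟩ := h3 γ L k α hγ hne hk h2k
  obtain ⟨hBC, hInt, -, -⟩ := hDDf f hf
  have hM : 0 ≤ M := (norm_nonneg _).trans (hfM 0)
  have hsl2 : ∀ u, Integrable (fun t => Dk α k γ t u) := by
    intro u
    have : (fun t => Dk α k γ t u) = fun t => Dk α k γ u t := by
      funext t; exact hDsym t u
    rw [this]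
    exact hDsl u
  -- the bound of `D f`
  have hDb : ∀ s, ‖DD α k γ f s‖ ≤ C1 / α ^ 2 * M := by
    intro s
    unfold DD
    refine (norm_integral_le_of_norm_le ((hDsl s).mul_const M) ?_).trans ?_
    · filter_upwards with t
      rw [norm_mul, Complex.norm_real, Real.norm_of_nonneg (hD0 s t)]
      exact mul_le_mul_of_nonneg_left (hfM t) (hD0 s t)
    · rw [integral_mul_const]
      exact mul_le_mul_of_nonneg_right (hD1a s) hM
  have hα12 : C1 / α ^ 2 ≤ C1 / α := by
    apply div_le_div_of_nonneg_left hC1.le hα0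
    nlinarith
  have main := fun (Φ : ℝ → ℂ) (a b : ℝ) (ha : 0 ≤ a) (hb : 0 ≤ b) (hΦc : Continuous Φ)
      (hΦb : ∀ t, ‖Φ t‖ ≤ b) (hΦl : ∀ t u, ‖Φ t - Φ u‖ ≤ a * |t - u|) =>
    main_est (D := Dk α k γ) (κ := fun s => kap2 γ s / 4) (β := α ^ 2 / 2) (C1 := C1 / α ^ 3)
      (C2 := C2 / α) (a := a) (b := b) (M := M) (Φ := Φ) (f := f) hD0 hDint hsl2 hD1c hD1d hD2' hκi (by positivity)
      ha hb hΦc hΦb hΦl hf.cont hfM
  have harith : ∀ a b : ℝ, (α ^ 2 / 2 * a * (C1 / α ^ 3) + b * (C2 / α)) * M =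
      (a * C1 / 2 + b * C2) / α * M := by
    intro a b
    field_simp
  refine ⟨?_, ?_, ?_⟩
  · -- continuity and boundedness
    obtain ⟨B, hB⟩ := hBC.bdd
    have hB0 : 0 ≤ B := (norm_nonneg _).trans (hB 0)
    have c1 : Continuous (fun s => ∫ t, g0 k (s - t) * DD α k γ f t) := by
      apply continuous_of_dominated (bound := fun t => 1 / (2 * k) * ‖DD α k γ f t‖)
      · intro s
        exact ((g0_cont k).comp (continuous_const.sub continuous_id)).aestronglyMeasurable.mul
          hInt.aestronglyMeasurable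
      · intro s
        filter_upwards with t
        rw [norm_mul, g0_norm hk]
      · exact hInt.norm.const_mul _
      · filter_upwards with t
        exact ((g0_cont k).comp (continuous_id.sub continuous_const)).mul continuous_const
    have e3 : ∀ s, ∫ t, (w (s - t) : ℂ) * DD α k γ f t = ∫ u, (w u : ℂ) * DD α k γ f (s - u) := by
      intro s
      rw [← integral_sub_left_eq_self (fun u => (w u : ℂ) * DD α k γ f (s - u)) volume s]
      apply integral_congr_ae
      filter_upwards with t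
      simp
    have c3 : Continuous (fun s => ∫ t, (w (s - t) : ℂ) * DD α k γ f t) := by
      have : (fun s => ∫ t, (w (s - t) : ℂ) * DD α k γ f t) = fun s => ∫ u, (w u : ℂ) * DD α k γ f (s - u) :=
        funext e3
      rw [this]
      apply continuous_of_dominated (bound := fun u => ‖w u‖ * B)
      · intro s
        exact hw.int.ofReal.aestronglyMeasurable.mul
          (hBC.cont.comp (continuous_const.sub continuous_id)).aestronglyMeasurable
      · intro s
        filter_upwards with u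
        rw [norm_mul, Complex.norm_real]
        exact mul_le_mul_of_nonneg_left (hB _) (norm_nonneg _)
      · exact hw.int.norm.mul_const B
      · filter_upwards with u
        exact continuous_const.mul (hBC.cont.comp (continuous_id.sub continuous_const))
    refine ⟨?_, ⟨‖((α ^ 2 / 2 : ℝ) : ℂ)‖ * (1 / (2 * k) * ∫ t, ‖DD α k γ f t‖) + B + (∫ u, ‖w u‖) * B, ?_⟩⟩
    · exact ((continuous_const.mul c1).add hBC.cont).add c3
    · intro s
      unfold KK
      refine (norm_add_le _ _).trans (add_le_add ((norm_add_le _ _).trans (add_le_add ?_ (hB s))) ?_)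
      · rw [norm_mul]
        apply mul_le_mul_of_nonneg_left _ (norm_nonneg _)
        rw [← integral_const_mul]
        refine norm_integral_le_of_norm_le (hInt.norm.const_mul _) ?_
        filter_upwards with t
        rw [norm_mul, g0_norm hk]
      · rw [e3 s, ← integral_mul_const]
        refine norm_integral_le_of_norm_le (hw.int.norm.mul_const B) ?_
        filter_upwards with u
        rw [norm_mul, Complex.norm_real]
        exact mul_le_mul_of_nonneg_left (hB _) (norm_nonneg _)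
  · intro s
    have m1 := main (fun t => g0 k (s - t)) (1 / 2) (1 / (2 * k)) (by norm_num) (by positivity)
      ((g0_cont k).comp (continuous_const.sub continuous_id)) (fun t => (g0_norm hk _).le) (by
        intro t u
        refine (g0_lip hk _ _).trans (le_of_eq ?_)
        congr 1
        rw [← abs_neg]; congr 1; ring)
    rw [harith] at m1
    have m3 : ‖∫ t, (w (s - t) : ℂ) * DD α k γ f t‖ ≤ C1 / α ^ 2 * M := by
      have e3 : ∫ t, (w (s - t) : ℂ) * DD α k γ f t = ∫ u, (w u : ℂ) * DD α k γ f (s - u) := by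
        rw [← integral_sub_left_eq_self (fun u => (w u : ℂ) * DD α k γ f (s - u)) volume s]
        apply integral_congr_ae
        filter_upwards with t
        simp
      rw [e3]
      have h9 : 0 ≤ C1 / α ^ 2 * M := by positivity
      calc ‖∫ u, (w u : ℂ) * DD α k γ f (s - u)‖ ≤ ∫ u, |w u| * (C1 / α ^ 2 * M) := by
            refine norm_integral_le_of_norm_le (hw.int.abs.mul_const _) ?_
            filter_upwards with u
            rw [norm_mul, Complex.norm_real, Real.norm_eq_abs]
            exact mul_le_mul_of_nonneg_left (hDb _) (abs_nonneg _)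
        _ = (∫ u, |w u|) * (C1 / α ^ 2 * M) := integral_mul_const _ _
        _ ≤ 1 * (C1 / α ^ 2 * M) := mul_le_mul_of_nonneg_right hw.le h9
        _ = _ := one_mul _
    have e4 : KK α k γ w f s - K0 k (fun s => kap2 γ s / 4) f s =
        (((α ^ 2 / 2 : ℝ) : ℂ) * (∫ t, g0 k (s - t) * ∫ u, (Dk α k γ t u : ℂ) * f u) -
          ∫ u, g0 k (s - u) * (((kap2 γ u / 4 : ℝ) : ℂ) * f u)) + DD α k γ f s +
          ∫ t, (w (s - t) : ℂ) * DD α k γ f t := by
      unfold KK K0 DD
      ring
    rw [e4]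
    have h10 : C1 / α ^ 2 * M ≤ C1 / α * M := mul_le_mul_of_nonneg_right hα12 hM
    calc _ ≤ (1 / 2 * C1 / 2 + 1 / (2 * k) * C2) / α * M + C1 / α ^ 2 * M + C1 / α ^ 2 * M :=
          (norm_add_le _ _).trans (add_le_add ((norm_add_le _ _).trans (add_le_add m1 (hDb s))) m3)
      _ ≤ (1 / 2 * C1 / 2 + 1 / (2 * k) * C2) / α * M + C1 / α * M + C1 / α * M := by linarith
      _ = (C1 / 4 + C2 / (2 * k) + 2 * C1) / α * M := by ring
      _ ≤ (C1 / 4 + C2 / (2 * k) + 2 * C1 + (k * C1 / 2 + C2)) / α * M := by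
          apply mul_le_mul_of_nonneg_right _ hM
          apply div_le_div_of_nonneg_right _ hα0.le
          have : 0 ≤ k * C1 / 2 + C2 := by positivity
          linarith
  · intro p hp
    have m1 := main (pw p) k 1 hk.le (by norm_num) (pw_cont p) (fun t => (pw_zero_norm p t).le) (by
      intro t u
      rcases hp with rfl | rfl
      · exact pw_lip hk.le t u
      · exact pw_lip_neg hk.le t u)
    rw [harith] at m1
    have e5 : ∫ s, pw p s * DD α k γ f s = ∫ t, pw p t * ∫ u, (Dk α k γ t u : ℂ) * f u := rfl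
    rw [e5]
    refine m1.trans ?_
    apply mul_le_mul_of_nonneg_right _ hM
    apply div_le_div_of_nonneg_right _ hα0.le
    have h11 : 0 ≤ C1 / 4 + C2 / (2 * k) + 2 * C1 := by positivity
    linarith

end Pool.Agent.E8helper63.LC
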